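import Mathlib
import Pool.Agent.Helper76.Elastic7

open Cardinal Set Filter Topology

/-!
# Nonseparable elastic Banach spaces need not be universal

The counterexample.  Let `B n` be the iterated power sets of a set of cardinality at least the
continuum and put `I = Σ n, B n`.  Consider the class of normed spaces having a linearly dense
family on which every continuous functional is countably supported; this class is invariant under
renorming.  A closing-off argument shows that in every renorming of a space of the class of density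
at most `#I` the family can be indexed by a subset of `I` in such a way that all coordinate
projections onto the first `n` levels are contractive.  The space `X` (modules
`Pool.Agent.Helper76.Elastic3` and `Pool.Agent.Helper76.Elastic5`) is the completion of a
seminormed space built on the tree of all such seminorms; it belongs to the class, has density
`#I`, and every member of the class of density at most `#I` embeds isometrically in it.  In
particular every renorming of `X` embeds isometrically in `X`.  On the other hand `ℓ¹(Γ)` with `Γ`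
uncountable does not embed in a space of the class.
-/

universe u

namespace Pool.Agent.Results.MP_9b3874_an.ElasticNotUniversal

open Pool.Agent.Helper76.Elastic

noncomputable section

/-- The density character of a topological space: the least cardinality of a dense subset. -/
def dens (X : Type u) [TopologicalSpace X] : Cardinal.{u} :=
  sInf {c : Cardinal.{u} | ∃ D : Set X, Dense D ∧ #D = c}

/-- `E` is `K`-isomorphic to a subspace of `F`: there is a linear homeomorphism `e` of `E` onto a
closed subspace `V` of `F` with `‖e‖ * ‖e⁻¹‖ ≤ K`. -/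
def KIsoSubspace (𝕜 : Type) [RCLike 𝕜] (K : ℝ) (E F : Type u) [NormedAddCommGroup E]
    [NormedSpace 𝕜 E] [NormedAddCommGroup F] [NormedSpace 𝕜 F] : Prop :=
  ∃ (V : Submodule 𝕜 F) (e : E ≃L[𝕜] V), IsClosed (V : Set F) ∧
    ‖(e : E →L[𝕜] V)‖ * ‖(e.symm : V →L[𝕜] E)‖ ≤ K

/-- `X` is `K`-elastic: every renorming of `X` is `K`-isomorphic to a subspace of `X`.  A renorming
of `X` is the same thing as a normed space `Z` with a linear homeomorphism `e` from `X` onto `Z`
(the equivalent norm on `X` being `x ↦ ‖e x‖`). -/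
def IsElastic (𝕜 : Type) [RCLike 𝕜] (K : ℝ) (X : Type u) [NormedAddCommGroup X]
    [NormedSpace 𝕜 X] : Prop :=
  ∀ (Z : Type u) [NormedAddCommGroup Z] [NormedSpace 𝕜 Z], (X ≃L[𝕜] Z) → KIsoSubspace 𝕜 K Z X

lemma dens_le {X : Type u} [TopologicalSpace X] {D : Set X} (h : Dense D) : dens X ≤ #D :=
  csInf_le' ⟨D, h, rfl⟩

lemma le_dens {X I : Type u} [PseudoMetricSpace X] (x : I → X)
    (hx : ∀ i j, i ≠ j → 1 ≤ dist (x i) (x j)) : #I ≤ dens X := by
  refine le_csInf ⟨_, Set.univ, dense_univ, rfl⟩ ?_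
  rintro c ⟨D, hD, rfl⟩
  have h1 : ∀ i, ∃ d ∈ D, dist (x i) d < 1 / 2 := fun i =>
    Metric.dense_iff.mp hD (x i) (1 / 2) (by norm_num) |>.imp fun d hd =>
      ⟨hd.2, by rw [dist_comm]; exact hd.1⟩
  choose d hd1 hd2 using h1
  refine mk_le_of_injective (f := fun i => (⟨d i, hd1 i⟩ : D)) ?_
  intro i j hij
  by_contra hne
  have h2 : d i = d j := congrArg Subtype.val hij
  have h3 := hx i j hne
  have h4 := dist_triangle (x i) (d i) (x j)
  have h5 := hd2 i
  have h6 := hd2 j
  rw [h2, dist_comm (d j) (x j)] at h4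
  rw [h2] at h5
  linarith

section

open scoped Classical

variable {𝕜 : Type} [RCLike 𝕜]

lemma lp_separated {Γ : Type u} (γ δ : Γ) (h : γ ≠ δ) :
    1 ≤ dist (lp.single (E := fun _ : Γ => 𝕜) 1 γ (1 : 𝕜)) (lp.single 1 δ (1 : 𝕜)) := by
  rw [dist_eq_norm]
  have := lp.norm_apply_le_norm (p := 1) (by simp)
    (lp.single (E := fun _ : Γ => 𝕜) 1 γ (1 : 𝕜) - lp.single 1 δ (1 : 𝕜)) γ
  rw [lp.coeFn_sub] at this
  have h2 : (lp.single (E := fun _ : Γ => 𝕜) 1 γ (1 : 𝕜) : Γ → 𝕜) γ = 1 := by simp
  have h3 : (lp.single (E := fun _ : Γ => 𝕜) 1 δ (1 : 𝕜) : Γ → 𝕜) γ = 0 := by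
    simp [h]
  change ‖(lp.single (E := fun _ : Γ => 𝕜) 1 γ (1 : 𝕜) : Γ → 𝕜) γ -
    (lp.single (E := fun _ : Γ => 𝕜) 1 δ (1 : 𝕜) : Γ → 𝕜) γ‖ ≤ _ at this
  rw [h2, h3] at this
  simpa using this

lemma dens_l1 {Γ : Type u} (h : 𝔠 ≤ #Γ) : dens (lp (fun _ : Γ => 𝕜) 1) = #Γ := by
  apply le_antisymm
  · let L : (Γ →₀ 𝕜) →ₗ[𝕜] lp (fun _ : Γ => 𝕜) 1 :=
      Finsupp.linearCombination 𝕜 fun γ => lp.single 1 γ (1 : 𝕜)
    have hd : Dense (range L) := by
      intro f
      have hs := lp.hasSum_single (p := 1) (by simp) f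
      refine mem_closure_of_tendsto hs (Eventually.of_forall fun s => ?_)
      refine ⟨∑ γ ∈ s, Finsupp.single γ (f γ), ?_⟩
      rw [map_sum]
      refine Finset.sum_congr rfl fun γ _ => ?_
      simp only [L, Finsupp.linearCombination_single]
      rw [← lp.single_smul, smul_eq_mul, mul_one]
    refine (dens_le hd).trans (mk_range_le.trans ?_)
    have : Nonempty Γ := by
      rw [← mk_ne_zero_iff]
      intro h0
      rw [h0] at h
      exact absurd h (not_le.mpr continuum_pos)
    have : Infinite 𝕜 := by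
      rw [← aleph0_le_mk_iff, mk_rclike]
      exact aleph0_le_continuum
    rw [mk_finsupp_lift_of_infinite', mk_rclike, lift_continuum, lift_id']
    exact max_le le_rfl h
  · exact le_dens (fun γ => lp.single 1 γ (1 : 𝕜)) fun γ δ h => lp_separated γ δ h

end

section

variable {𝕜 : Type} [RCLike 𝕜] {B : ℕ → Type u}

/-- The seminorm `v ↦ ‖v i‖`. -/
def coordSeminorm (i : Σ n, B n) : Seminorm 𝕜 (V 𝕜 B) :=
  (normSeminorm 𝕜 𝕜).comp (Finsupp.lapply i)

lemma coordSeminorm_apply (i : Σ n, B n) (v : V 𝕜 B) : coordSeminorm i v = ‖v i‖ := rfl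

lemma coordSeminorm_node (i : Σ n, B n) : IsNode 𝕜 B (coordSeminorm i) := by
  constructor
  · intro n v
    rw [coordSeminorm_apply, coordSeminorm_apply, P_apply]
    split_ifs
    · exact le_rfl
    · rw [norm_zero]; exact norm_nonneg _
  · rintro f ⟨C, -, hf⟩
    refine (countable_singleton i).mono fun k hk => ?_
    by_contra hne
    have h1 := hf (Finsupp.single k 1)
    rw [coordSeminorm_apply, Finsupp.single_eq_of_ne (fun h => hne (by rw [h]; rfl))] at h1
    rw [norm_zero, mul_zero] at h1
    exact hk (norm_le_zero_iff.mp h1)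

lemma coordSeminorm_comp (i : Σ n, B n) :
    (coordSeminorm i : Seminorm 𝕜 (V 𝕜 B)).comp (P 𝕜 B i.1) = coordSeminorm i := by
  ext v
  rw [Seminorm.comp_apply, coordSeminorm_apply, coordSeminorm_apply, P_apply, if_pos le_rfl]

/-- An element of `J` over every index. -/
def jc (i : Σ n, B n) : J 𝕜 B := ⟨coordSeminorm i, i, coordSeminorm_node i, coordSeminorm_comp i⟩

lemma separated_X (i k : Σ n, B n) (h : i ≠ k) :
    1 ≤ dist (mX 𝕜 B (jc i)) (mX 𝕜 B (jc k)) := by
  rw [dist_eq_norm]
  simp only [mX]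
  rw [← map_sub, norm_toX]
  refine le_trans ?_ (le_q (coordSeminorm_node i) _)
  rw [map_sub, R_single, R_single, if_pos, if_neg, sub_zero]
  · rw [coordSeminorm_apply]
    simp [jc]
  · intro hcon
    have h1 := congrArg (fun s : Seminorm 𝕜 (V 𝕜 B) => s (Finsupp.single k 1)) hcon
    simp only [jc, Seminorm.comp_apply] at h1
    rw [P_single _ _ _ _ le_rfl, coordSeminorm_apply, coordSeminorm_apply,
      Finsupp.single_eq_same, Finsupp.single_eq_of_ne h] at h1
    simp at h1
  · exact (coordSeminorm_comp i).symm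

end

/-- Iterated power sets. -/
def powers (A : Type u) : ℕ → Type u
  | 0 => A
  | n + 1 => Set (powers A n)

/-- **Main theorem.**  For every cardinal `μ` (and both scalar fields) there is a Banach space `X`
of density character `> max μ ℵ₀` which is `1`-elastic, together with a Banach space `Y` of the same
density character which is not isomorphic to a subspace of `X`. -/
theorem result (𝕜 : Type) [RCLike 𝕜] (μ : Cardinal.{u}) :
    ∃ (X : Type u) (_ : NormedAddCommGroup X) (_ : NormedSpace 𝕜 X) (_ : CompleteSpace X),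
      max μ ℵ₀ < dens X ∧ IsElastic 𝕜 1 X ∧
      ∃ (Y : Type u) (_ : NormedAddCommGroup Y) (_ : NormedSpace 𝕜 Y) (_ : CompleteSpace Y),
        dens Y = dens X ∧ ¬ ∃ K : ℝ, KIsoSubspace 𝕜 K Y X := by
  set B : ℕ → Type u := powers (max μ 𝔠 : Cardinal.{u}).out with hBdef
  have hB0 : #(B 0) = max μ 𝔠 := mk_out _
  have hBs : ∀ n, #(B (n + 1)) = 2 ^ #(B n) := fun n => mk_set
  have h0 : 𝔠 ≤ #(B 0) := by rw [hB0]; exact le_max_right _ _
  have hB : ∀ n, 2 ^ #(B n) ≤ #(B (n + 1)) := fun n => (hBs n).ge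
  have hI : #(Σ n, B n) ≤ dens (X 𝕜 B) :=
    le_dens (fun i => mX 𝕜 B (jc i)) fun i k h => separated_X i k h
  have hB1 : #(B 1) ≤ #(Σ n, B n) :=
    mk_le_of_injective (f := fun b : B 1 => (⟨1, b⟩ : Σ n, B n))
      (fun a b h => eq_of_heq (Sigma.mk.inj h).2)
  have hbig : max μ 𝔠 < dens (X 𝕜 B) := by
    rw [← hB0]
    calc #(B 0) < 2 ^ #(B 0) := cantor _
      _ = #(B 1) := (hBs 0).symm
      _ ≤ _ := hB1.trans hI
  refine ⟨X 𝕜 B, inferInstance, inferInstance, inferInstance, ?_, ?_, ?_⟩
  · refine lt_of_le_of_lt ?_ hbig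
    exact max_le (le_max_left _ _) (aleph0_le_continuum.trans (le_max_right _ _))
  · intro Z _ _ e
    obtain ⟨T⟩ := exists_isometry_of_equiv h0 hB e
    have hcomp : CompleteSpace Z :=
      (completeSpace_congr (e := e.toEquiv) e.isUniformEmbedding).mp inferInstance
    refine ⟨LinearMap.range T.toLinearMap, T.equivRange.toContinuousLinearEquiv, ?_, ?_⟩
    · have := T.isometry.isClosedEmbedding.isClosed_range
      exact this
    · have n1 : ‖(T.equivRange.toContinuousLinearEquiv :
          Z →L[𝕜] LinearMap.range T.toLinearMap)‖ ≤ 1 :=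
        ContinuousLinearMap.opNorm_le_bound _ zero_le_one fun x => by
          rw [one_mul]; exact (T.equivRange.norm_map x).le
      have n2 : ‖(T.equivRange.toContinuousLinearEquiv.symm :
          LinearMap.range T.toLinearMap →L[𝕜] Z)‖ ≤ 1 :=
        ContinuousLinearMap.opNorm_le_bound _ zero_le_one fun x => by
          rw [one_mul]; exact (T.equivRange.symm.norm_map x).le
      exact mul_le_one₀ n1 (norm_nonneg _) n2
  · set Γ : Type u := (dens (X 𝕜 B)).out with hΓ
    have hΓc : #Γ = dens (X 𝕜 B) := mk_out _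
    have h1 : 𝔠 ≤ #Γ := by
      rw [hΓc]; exact (le_max_right _ _).trans hbig.le
    have hunc : Uncountable Γ := by
      rw [← aleph0_lt_mk_iff]
      exact aleph0_lt_continuum.trans_le h1
    refine ⟨lp (fun _ : Γ => 𝕜) 1, inferInstance, inferInstance, inferInstance, ?_, ?_⟩
    · rw [dens_l1 h1, hΓc]
    · rintro ⟨K, V, e, -, -⟩
      refine no_l1 (Γ := Γ) (mX 𝕜 B) ?_ (countable_support_X 𝕜 B)
        (V.subtype.comp (e : lp (fun _ : Γ => 𝕜) 1 →ₗ[𝕜] V))
        (1 / (‖(e.symm : V →L[𝕜] lp (fun _ : Γ => 𝕜) 1)‖ + 1)) (by positivity) fun x => ?_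
      · rw [linearCombination_mX]
        exact denseRange_toX 𝕜 B
      · have h2 : ‖x‖ ≤ ‖(e.symm : V →L[𝕜] lp (fun _ : Γ => 𝕜) 1)‖ * ‖e x‖ := by
          have := (e.symm : V →L[𝕜] lp (fun _ : Γ => 𝕜) 1).le_opNorm (e x)
          simpa using this
        have h3 : ‖(V.subtype.comp (e : lp (fun _ : Γ => 𝕜) 1 →ₗ[𝕜] V)) x‖ = ‖e x‖ := rfl
        rw [h3, one_div, inv_mul_le_iff₀ (by positivity)]
        refine h2.trans ?_
        have := norm_nonneg (e x)
        nlinarith

end

end Pool.Agent.Results.MP_9b3874_an.ElasticNotUniversal
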